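import Pool.Agent.Run7.h23.Idl

/-!
# The 2-primary parts of the Tate-Shafarevich groups over all 2-extensions at the same time

Let `T` be a finite set of primes and `K₀` any finite Galois extension of `ℚ`.

Theorem. There is a finite set `S` of primes (`1` modulo `8`, not in `T`, completely split in `K₀`) and a
positive proportion of ALL elliptic curves `E : y ^ 2 = x ^ 3 + A x + B` over `ℚ`, ordered by height, with the
following property. For EVERY finite Galois extension `K / ℚ` of 2-power degree such that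
* `2` is unramified in `K`,
* the primes `q` in `S` are unramified in `K` and their residue fields in `K` have `q` or `q ^ 2` elements,
* every other prime `q` which is ramified in `K` is in `T` or `x ^ 3 + A x + B` has no zero modulo `q`,

the 2-Selmer group of `E` over `K` is trivial, `Ш(E / K)[2 ^ ∞] = 0` and `E(K) = 0`. The same holds, at the same
time, for all quadratic twists `E ^ d` for which each prime divisor `q` of `d` is in `T` or is a prime modulo which
`x ^ 3 + A x + B` has no zero, and `t d` is not of the form `4 ^ k (4 m + 3)`, where `t` in `{1, -1, 2, -2}` is fixed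
in advance.

There is no bound on the degree of `K`, on the Galois group (any 2-group) or on the number of ramified
primes, and `c` and `S` do not depend on `K`. The conditions on `K` are stable under composita, so for
each of these curves the fields `K` together form one infinite Galois extension of `ℚ`; it contains `√ e`
for all `e = 1` modulo `4` prime to `S` whose prime divisors are as above, and all the layers of the tame pro-2
extensions of `ℚ` in which finitely many such primes are ramified and the primes in `S` have Frobenius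
elements of order at most two. If `T` contains the primes which are ramified in `K₀`, `K₀` has 2-power
degree and `2` is unramified in `K₀` then `K₀` is one of the fields `K`.

The proof. We use the method of `N922` (explained in `MP_775b3b_nt.PositiveProportionUnramified`) and of
`MP_e23604_nt.SimultaneousTwists`. For `(a, b)` in the family and not bad there is a subset `J` of `S`
for which a group of classes `α` over `ℚ(θ)` is trivial (even valuations away from `J`, conditions at `J` and
at `2`); it does not depend on `K` (this is used here). `E` is the twist by `t D`, `D` the product over `J`. A class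
of the Selmer group over `K` gives an element of `K(θ)`; the group of all elements of `K(θ)` which
satisfy the local conditions is stable under `Gal(K / ℚ)`, so it is enough to show that an element of `ℚ(θ)`
in it is a square. New, compared with the fixed field in `N922` (where a generator of the field is used
and its ramified primes are in `T`):
* at a prime `P` which is not ramified in `K` but may divide the discriminant of `ℚ(θ)` only the primes of `K(θ)` at
  which `f'(θ)` is a unit are used; they are unramified over `K` and over `ℚ(θ)`; the remaining prime of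
  `ℚ(θ)` over `P` is unique, of degree one, and the valuation there is even because the norm is a square;
* at the primes over `Q` in `J` the cubic polynomial may split over `K`; the classes of all the points are
  determined (three classes of points of order two; `- 1`, `2` and all integers prime to `Q` are squares in
  the quadratic residue field); `K` embeds in the completion of `ℚ(θ)` at the prime of degree two over
  `Q`, and `ℚ(θ)` is dense in it;
* at the prime of degree one over `Q` the valuation is even because the norm is a square and the other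
  prime has degree two.

Over `k(t)` the corresponding theorem for fixed `d = 1` and completely split `S` is
`MP_ff7320_nt.UniformOverTwoExtensions` (helper874). The lemmas are in `Pool/Agent/Run7/h23` (helper23); the
theorems on lattices, reduction, reciprocity, linear algebra over the field with two elements and Galois descent
are those of the projects PQ and PV of `N922`.
-/

set_option autoImplicit false
set_option linter.all false

namespace Pool.Agent.Results.MP_78d38b_nt.UniformTwoExtensions

open Filter NumberField IsDedekindDomain Pool.Agent.TH115.GD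
open scoped Classical

/-- The equation `y ^ 2 = x ^ 3 + A x + B` with integers `A`, `B` defines an elliptic curve, and
there is no prime `p` with `p ^ 4 ∣ A` and `p ^ 6 ∣ B`. Every elliptic curve over `ℚ` is isomorphic to
exactly one of these. -/
structure IsMinimal (A B : ℤ) : Prop where
  elliptic : 4 * A ^ 3 + 27 * B ^ 2 ≠ 0
  minimal : ∀ p : ℕ, p.Prime → ¬ ((p : ℤ) ^ 4 ∣ A ∧ (p : ℤ) ^ 6 ∣ B)

/-- The height. -/
def height (p : ℤ × ℤ) : ℤ := max (4 * |p.1| ^ 3) (27 * p.2 ^ 2)

/-- The set of all elliptic curves over `ℚ` of height at most `X`. -/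
def Curves (X : ℕ) : Set (ℤ × ℤ) := {p | IsMinimal p.1 p.2 ∧ height p ≤ X}

/-- The curve `y ^ 2 = x ^ 3 + A x + B` over `K`. -/
def curve (K : Type) [Field K] (p : ℤ × ℤ) : WeierstrassCurve K := ⟨0, 0, 0, (p.1 : K), (p.2 : K)⟩

/-- The quadratic twist by `d`: `y ^ 2 = x ^ 3 + A d ^ 2 x + B d ^ 3`. -/
def twist (p : ℤ × ℤ) (d : ℤ) : ℤ × ℤ := (p.1 * d ^ 2, p.2 * d ^ 3)

section sha

variable (K : Type) [Field K] [NumberField K] (W : WeierstrassCurve K)

/-- The cocycle `f` of `Gal(Sep K / K)` is a coboundary over the completion of `K` at every maximal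
ideal of the ring of integers. -/
def Locally (f : (Sep K ≃ₐ[K] Sep K) → Pt W (Sep K)) : Prop :=
  ∀ v : HeightOneSpectrum (𝓞 K), LocTriv W (Comp (𝓞 K) K v) (Sep (Comp (𝓞 K) K v)) f

/-- `f` is a 2-Selmer cocycle: continuous, with values in the points of order two, and a coboundary
over all completions (at the finite places), with values in all points. -/
structure SelCoc (f : (Sep K ≃ₐ[K] Sep K) → Pt W (Sep K)) : Prop where
  coc : IsCoc W f
  two : ∀ σ, (2 : ℕ) • f σ = 0
  loc : Locally K W f

/-- `f` is the coboundary of a point of order two (its class in the 2-Selmer group is zero). -/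
def SelCob (f : (Sep K ≃ₐ[K] Sep K) → Pt W (Sep K)) : Prop :=
  ∃ T : Pt W (Sep K), (2 : ℕ) • T = 0 ∧ ∀ σ, f σ = act W (rs K σ) T - T

/-- The 2-Selmer group is zero. -/
def SelTwoZero : Prop := ∀ f, SelCoc K W f → SelCob K W f

/-- The 2-primary part of the Tate-Shafarevich group is zero: every continuous cocycle whose class
is killed by a power of two and which is a coboundary over all completions (at the finite places) is a
coboundary. -/
def ShaTwoZero : Prop :=
  ∀ f : (Sep K ≃ₐ[K] Sep K) → Pt W (Sep K), IsCoc W f → Locally K W f →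
    (∃ (n : ℕ) (Q : Pt W (Sep K)), ∀ σ, 2 ^ n • f σ = act W (rs K σ) Q - Q) →
    ∃ Q : Pt W (Sep K), ∀ σ, f σ = act W (rs K σ) Q - Q

end sha

/-- Trivial 2-Selmer group, trivial 2-primary part of the Tate-Shafarevich group, and no points
except the point at infinity, over `K`. -/
structure Good (K : Type) [Field K] [NumberField K] (p : ℤ × ℤ) : Prop where
  sel : SelTwoZero K (curve K p)
  sha : ShaTwoZero K (curve K p)
  trivial : Subsingleton (Pt (curve K p) K)

/-- Every prime divisor `q` of `d` is in `T`, or `x ^ 3 + A x + B` has no zero modulo `q`. -/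
def Admissible (T : Finset ℕ) (p : ℤ × ℤ) (d : ℤ) : Prop :=
  ∀ q : ℕ, q.Prime → (q : ℤ) ∣ d → q ∈ T ∨ ∀ z : ℤ, ¬ (q : ℤ) ∣ z ^ 3 + p.1 * z + p.2

/-- The integers `4 ^ k (4 m + 3)`. -/
def Excluded (e : ℤ) : Prop := ∃ (k : ℕ) (m : ℤ), e = 4 ^ k * (4 * m + 3)

/-- The prime number `q` splits completely in `K`: for every prime ideal `𝔭` over `q`, `q` is not in
`𝔭 ^ 2` and every integer of `K` is congruent to a rational integer modulo `𝔭`. -/
def SplitsCompletely (K : Type) [Field K] [NumberField K] (q : ℕ) : Prop :=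
  ∀ 𝔭 : Ideal (𝓞 K), 𝔭.IsPrime → (q : 𝓞 K) ∈ 𝔭 →
    (q : 𝓞 K) ∉ 𝔭 ^ 2 ∧ ∀ y : 𝓞 K, ∃ z : ℤ, y - (z : 𝓞 K) ∈ 𝔭

/-- The conditions on the extension `K` of `ℚ` for the curve `p`: the degree is a power of two, `2` is
unramified, the primes `q` in `S` are unramified with residue fields of at most `q ^ 2` elements, and for
every other ramified prime `q` which is not in `T` the polynomial `x ^ 3 + A x + B` has no zero modulo `q`. -/
structure Allowed (S T : Finset ℕ) (p : ℤ × ℤ) (K : Type) [Field K] [NumberField K] : Prop where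
  deg : ∃ n : ℕ, Module.finrank ℚ K = 2 ^ n
  two : ∀ 𝔭 : Ideal (𝓞 K), 𝔭.IsPrime → (2 : 𝓞 K) ∉ 𝔭 ^ 2
  mem : ∀ q ∈ S, ∀ 𝔭 : Ideal (𝓞 K), 𝔭.IsPrime → (q : 𝓞 K) ∈ 𝔭 →
    (q : 𝓞 K) ∉ 𝔭 ^ 2 ∧ Nat.card (𝓞 K ⧸ 𝔭) ≤ q ^ 2
  ram : ∀ q : ℕ, q.Prime → q ∉ T → (∃ 𝔭 : Ideal (𝓞 K), 𝔭.IsPrime ∧ (q : 𝓞 K) ∈ 𝔭 ^ 2) →
    ∀ z : ℤ, ¬ (q : ℤ) ∣ z ^ 3 + p.1 * z + p.2

/-- The property of the curve `p` in the theorem: all the fields and all the admissible twists. -/
def Uniform (S T : Finset ℕ) (t : ℤ) (p : ℤ × ℤ) : Prop :=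
  ∀ (K : Type) [Field K] [NumberField K] [IsGalois ℚ K], Allowed S T p K →
    ∀ d : ℤ, d ≠ 0 → Admissible T p d → ¬ Excluded (t * d) → Good K (twist p d)

theorem crv_iff (X : ℕ) (p : ℤ × ℤ) : Pool.Agent.N922.PQ.Crv X p.1 p.2 ↔ p ∈ Curves X := by
  constructor
  · rintro ⟨h1, h2, h3, h4⟩
    exact ⟨⟨h1, h2⟩, max_le h3 h4⟩
  · rintro ⟨⟨h1, h2⟩, h3⟩
    exact ⟨h1, h2, (le_max_left _ _).trans h3, (le_max_right _ _).trans h3⟩

theorem nonempty {X : ℕ} (hX : 27 ≤ X) : ((1, 1) : ℤ × ℤ) ∈ Curves X := by
  refine ⟨⟨by norm_num, ?_⟩, ?_⟩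
  · rintro p hp ⟨h, -⟩
    have h1 : ((p : ℤ)) ∣ 1 := (dvd_pow_self (p : ℤ) (by norm_num)).trans h
    have h2 : p ∣ 1 := by exact_mod_cast h1
    exact hp.one_lt.ne' (Nat.dvd_one.1 h2)
  · have : height ((1, 1) : ℤ × ℤ) = 27 := by
      simp [height]
    rw [this]
    exact_mod_cast hX

theorem excl_iff (e : ℤ) : Excluded e ↔ Run7.h23.Bd e := by
  constructor
  · rintro ⟨k, m, h⟩
    exact ⟨k, 4 * m + 3, h, by omega⟩
  · rintro ⟨k, e', h, h3⟩
    refine ⟨k, e' / 4, ?_⟩
    rw [h]
    congr 1
    omega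

/-- The set `T` as a set of integers. -/
noncomputable def toZ (T : Finset ℕ) : Finset ℤ :=
  (T.image fun q : ℕ => (q : ℤ)).filter fun P => Pool.Agent.N922.PQ.IsPr P

theorem mem_toZ {T : Finset ℕ} {q : ℕ} (hq : q ∈ T) (hp : q.Prime) : (q : ℤ) ∈ toZ T := by
  rw [toZ, Finset.mem_filter]
  exact ⟨Finset.mem_image_of_mem _ hq, by exact_mod_cast hp.pos, Nat.prime_iff_prime_int.1 hp⟩

theorem adm_of {T : Finset ℕ} {p : ℤ × ℤ} {d : ℤ} (h : Admissible T p d) :
    Run7.h23.AdmC (toZ T) p.1 p.2 d := by
  intro P hP hd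
  obtain ⟨q, rfl⟩ : ∃ q : ℕ, P = (q : ℤ) := ⟨P.toNat, (Int.toNat_of_nonneg hP.1.le).symm⟩
  have hq : q.Prime := Nat.prime_iff_prime_int.2 hP.2
  rcases h q hq hd with h1 | h1
  · exact Or.inl (mem_toZ h1 hq)
  · exact Or.inr h1

theorem mok_of {S : Finset ℤ} (hS : ∀ Q ∈ S, Pool.Agent.N922.PQ.IsPr Q) {T : Finset ℕ} {p : ℤ × ℤ}
    {K : Type} [Field K] [NumberField K] (h : Allowed (S.image Int.toNat) T p K) :
    Run7.h23.Mok K (𝓞 K) S (toZ T) p.1 p.2 where
  two := Pool.Agent.N922.PQ.val_two_of h.two
  sun Q hQ w hw := by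
    rw [Run7.h23.val_iff_sq Q w hw]
    have hQ' : ((Q.toNat : ℕ) : ℤ) = Q := Int.toNat_of_nonneg (hS Q hQ).1.le
    have h1 := (h.mem Q.toNat (Finset.mem_image_of_mem _ hQ) w.asIdeal w.isPrime (by
      have h2 : ((Q.toNat : ℕ) : 𝓞 K) = ((Q : ℤ) : 𝓞 K) := by
        conv_rhs => rw [← hQ']
        rw [Int.cast_natCast]
      rw [h2]
      exact hw)).1
    have h2 : ((Q.toNat : ℕ) : 𝓞 K) = ((Q : ℤ) : 𝓞 K) := by
      conv_rhs => rw [← hQ']
      rw [Int.cast_natCast]
    rwa [h2] at h1
  sres Q hQ w hw := by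
    have hQ' : ((Q.toNat : ℕ) : ℤ) = Q := Int.toNat_of_nonneg (hS Q hQ).1.le
    have h2 : ((Q.toNat : ℕ) : 𝓞 K) = ((Q : ℤ) : 𝓞 K) := by
      conv_rhs => rw [← hQ']
      rw [Int.cast_natCast]
    have h1 := (h.mem Q.toNat (Finset.mem_image_of_mem _ hQ) w.asIdeal w.isPrime (by
      rw [h2]
      exact hw)).2
    have hq : Q.toNat.Prime := Nat.prime_iff_prime_int.2 (by rw [hQ']; exact (hS Q hQ).2)
    exact Run7.h23.res_pow hq w (by rw [hQ']; exact hw) h1
  ram P hP hPT hw z := by
    obtain ⟨w, hw, hne⟩ := hw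
    rw [Ne, Run7.h23.val_iff_sq P w hw, not_not] at hne
    obtain ⟨q, rfl⟩ : ∃ q : ℕ, P = (q : ℤ) := ⟨P.toNat, (Int.toNat_of_nonneg hP.1.le).symm⟩
    have hq : q.Prime := Nat.prime_iff_prime_int.2 hP.2
    refine h.ram q hq (fun h' => hPT (mem_toZ h' hq)) ⟨w.asIdeal, w.isPrime, ?_⟩ z
    rw [Int.cast_natCast] at hne
    exact hne

/-- For every finite set `T` of primes and every finite Galois extension `K₀` of `ℚ` there is a finite
set `S` of primes, `1` modulo `8`, not in `T` and completely split in `K₀`, such that for every `t` in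
`{1, -1, 2, -2}` there is `c > 0` such that for all large `X` at least `c` times the number of all elliptic
curves `E` over `ℚ` of height at most `X` have the following property: for EVERY finite Galois extension `K` of
`ℚ` of 2-power degree in which `2` is unramified, the primes `q` in `S` are unramified with residue
fields of at most `q ^ 2` elements, and every other ramified prime is in `T` or is a prime modulo which
the cubic polynomial has no zero, and for every `d ≠ 0` each prime divisor of which is in `T` or is such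
a prime and for which `t d` is not of the form `4 ^ k (4 m + 3)`, the twist `E ^ d` has trivial 2-Selmer group
over `K`, trivial 2-primary part of `Ш(E ^ d / K)`, and `E ^ d (K) = 0`. -/
theorem result (T : Finset ℕ) (K₀ : Type) [Field K₀] [NumberField K₀] [IsGalois ℚ K₀] :
    (∀ X : ℕ, (Curves X).Finite) ∧
    ∃ S : Finset ℕ, (∀ q ∈ S, q.Prime ∧ q % 8 = 1 ∧ q ∉ T ∧ SplitsCompletely K₀ q) ∧
    ∀ t : ℤ, (t = 1 ∨ t = -1 ∨ t = 2 ∨ t = -2) →
    ∃ c : ℝ, 0 < c ∧ ∀ᶠ X : ℕ in atTop,
      0 < (Curves X).ncard ∧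
      c * ((Curves X).ncard : ℝ) ≤ (({p ∈ Curves X | Uniform S T t p}).ncard : ℝ) := by
  have hset : ∀ X : ℕ, Curves X = {p : ℤ × ℤ | Pool.Agent.N922.PQ.Crv X p.1 p.2} := by
    intro X
    ext p
    exact (crv_iff X p).symm
  have hfin : ∀ X : ℕ, (Curves X).Finite := fun X => by
    rw [hset]
    exact Pool.Agent.N922.PQ.crv_fin X
  refine ⟨hfin, ?_⟩
  obtain ⟨S, hS, hmain⟩ := Run7.h23.finalU (toZ T)
    (fun P hP => (Finset.mem_filter.1 hP).2) K₀ (𝓞 K₀)
  refine ⟨S.image Int.toNat, ?_, ?_⟩
  · intro q hq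
    obtain ⟨Q, hQ, rfl⟩ := Finset.mem_image.1 hq
    obtain ⟨h1, h2, h3, h4⟩ := hS Q hQ
    have hQ' : ((Q.toNat : ℕ) : ℤ) = Q := Int.toNat_of_nonneg h1.1.le
    have hp : Q.toNat.Prime := Nat.prime_iff_prime_int.2 (by rw [hQ']; exact h1.2)
    refine ⟨hp, by omega, fun h => h3 (by rw [← hQ']; exact mem_toZ h hp), ?_⟩
    intro 𝔭 h𝔭 hmem
    have hcast : ((Q.toNat : ℕ) : 𝓞 K₀) = ((Q : ℤ) : 𝓞 K₀) := by
      conv_rhs => rw [← hQ']
      rw [Int.cast_natCast]
    have hne : 𝔭 ≠ ⊥ := by
      rintro rfl
      rw [Ideal.mem_bot] at hmem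
      exact hp.ne_zero (by exact_mod_cast hmem)
    let w : HeightOneSpectrum (𝓞 K₀) := ⟨𝔭, h𝔭, hne⟩
    have hw : Pool.Agent.N922.PQ.Ov Q w := by
      show ((Q : ℤ) : 𝓞 K₀) ∈ 𝔭
      rw [← hcast]
      exact hmem
    obtain ⟨h5, h6⟩ := h4 w hw
    refine ⟨?_, h6⟩
    rw [hcast]
    exact (Run7.h23.val_iff_sq Q w hw).1 h5
  intro t ht
  obtain ⟨c, hc, X₀, h⟩ := hmain t ht
  refine ⟨c, hc, ?_⟩
  filter_upwards [eventually_ge_atTop (max X₀ 27)] with X hX
  refine ⟨(Set.ncard_pos (hfin X)).2 ⟨_, nonempty ((le_max_right _ _).trans hX)⟩, ?_⟩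
  have h1 := (h X ((le_max_left _ _).trans hX)).2
  rw [← hset] at h1
  refine h1.trans ?_
  have h3 : {p : ℤ × ℤ | Pool.Agent.N922.PQ.Crv X p.1 p.2 ∧
      Run7.h23.GoodU S (toZ T) t p} ⊆
      {p ∈ Curves X | Uniform (S.image Int.toNat) T t p} := by
    rintro p ⟨hp, hg⟩
    refine ⟨(crv_iff X p).1 hp, ?_⟩
    intro K _ _ _ hK d hd hadm he
    obtain ⟨n, hn⟩ := hK.deg
    obtain ⟨hs, hd', hsha⟩ := hg K (𝓞 K) n hn (mok_of (fun Q hQ => (hS Q hQ).1) hK) d hd
      (adm_of hadm) (by rwa [← excl_iff])
    exact ⟨fun f hf => hs f hf.coc hf.two hf.loc, hsha, hd'⟩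
  have h4 := Set.ncard_le_ncard h3 ((hfin X).subset fun p hp => hp.1)
  exact_mod_cast h4

end Pool.Agent.Results.MP_78d38b_nt.UniformTwoExtensions
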